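import Pool.Agent.H18.TD.Targets

/-!
# td1_modules, row DEP: algebraic dependence of two real numbers
-/

set_option autoImplicit false

open Polynomial Module Filter Topology Pool.Agent.H18.TD

namespace Pool.Agent.H46.TD

theorem pf_DEP : T_DEP := by
  intro t z ht
  have h0 : AlgebraicIndependent ℚ ![t, z] ↔ AlgebraicIndependent ℚ ![(t : ℂ), (z : ℂ)] := by
    have h1 := AlgHom.algebraicIndependent_iff (R := ℚ) (x := ![t, z])
      (Complex.ofRealAm.restrictScalars ℚ) Complex.ofReal_injective
    rw [← h1]
    have h2 : (⇑(Complex.ofRealAm.restrictScalars ℚ) ∘ ![t, z]) = ![(t : ℂ), (z : ℂ)] := by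
      funext i
      fin_cases i <;> rfl
    rw [h2]
  have h3 : AlgebraicIndependent ℚ ![(t : ℂ)] := by
    have h4 := algebraicIndependent_iff_transcendental (R := ℚ) (x := (t : ℂ))
    rw [h4]
    intro h5
    apply ht
    exact (isAlgebraic_algebraMap_iff (R := ℚ) (A := ℂ) (S := ℝ) Complex.ofReal_injective).1 h5
  have h6 : AlgebraicIndependent ℚ ![(t : ℂ), (z : ℂ)] ↔
      AlgebraicIndependent ℚ (fun o : Option (Fin 1) => o.elim (z : ℂ) ![(t : ℂ)]) := by
    let e : Fin 2 ≃ Option (Fin 1) :=
      { toFun := ![some 0, none]
        invFun := fun o => o.elim 1 fun _ => 0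
        left_inv := by intro i; fin_cases i <;> rfl
        right_inv := by
          intro o
          rcases o with _ | i
          · rfl
          · fin_cases i
            rfl }
    refine algebraicIndependent_equiv' e ?_
    funext i
    fin_cases i <;> rfl
  rw [h0, h6, h3.option_iff_transcendental]
  have h7 : Set.range ![(t : ℂ)] = {(t : ℂ)} := by
    rw [Matrix.range_cons, Matrix.range_empty, Set.union_empty]
  rw [Transcendental, not_not, h7]
  exact IntermediateField.isAlgebraic_adjoin_iff.symm

end Pool.Agent.H46.TD
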