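import Pool.Agent.H18.TD.Targets

/-!
# td1_modules, row NRM: from a representation to a polynomial in `t`
-/

set_option autoImplicit false

open Polynomial Module Filter Topology Pool.Agent.H18.TD

namespace Pool.Agent.H46.TD

theorem nrm_val {t : ℂ} {T : ℝ} (hT1 : 1 ≤ T) (hT : ‖t‖ ≤ T) {P : ℤ[X]} {n : ℕ} {L : ℝ}
    (hn : P.natDegree ≤ n) (hL : (∑ i ∈ P.support, |(P.coeff i : ℝ)|) ≤ L) :
    ‖aeval t P‖ ≤ L * T ^ n := by
  have h1 : aeval t P = ∑ i ∈ P.support, (P.coeff i : ℂ) * t ^ i := by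
    rw [aeval_def, eval₂_eq_sum, Polynomial.sum]
    rfl
  rw [h1]
  refine (norm_sum_le _ _).trans ?_
  have h2 : ∀ i ∈ P.support, ‖(P.coeff i : ℂ) * t ^ i‖ ≤ |(P.coeff i : ℝ)| * T ^ n := by
    intro i hi
    rw [norm_mul, norm_pow]
    have h3 : ‖(P.coeff i : ℂ)‖ = |(P.coeff i : ℝ)| := by
      rw [← Complex.ofReal_intCast, Complex.norm_real, Real.norm_eq_abs]
    rw [h3]
    refine mul_le_mul_of_nonneg_left ?_ (abs_nonneg _)
    exact (pow_le_pow_left₀ (norm_nonneg _) hT i).trans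
      (pow_le_pow_right₀ hT1 ((le_natDegree_of_mem_supp i hi).trans hn))
  refine (Finset.sum_le_sum h2).trans ?_
  rw [← Finset.sum_mul]
  exact mul_le_mul_of_nonneg_right hL (by positivity)

theorem nrm_det {N : ℕ} (M : Matrix (Fin N) (Fin N) ℂ) {K : ℝ} (hK : ∀ i j, ‖M i j‖ ≤ K) :
    ‖M.det‖ ≤ (N.factorial : ℝ) * K ^ N := by
  rw [Matrix.det_apply]
  refine (norm_sum_le _ _).trans ?_
  have h1 : ∀ σ ∈ (Finset.univ : Finset (Equiv.Perm (Fin N))),
      ‖Equiv.Perm.sign σ • ∏ i, M (σ i) i‖ ≤ K ^ N := by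
    intro σ _
    have h2 : ‖Equiv.Perm.sign σ • ∏ i, M (σ i) i‖ = ∏ i, ‖M (σ i) i‖ := by
      rcases Int.units_eq_one_or (Equiv.Perm.sign σ) with h | h
      · rw [h, one_smul, norm_prod]
      · rw [h, Units.neg_smul, one_smul, norm_neg, norm_prod]
    rw [h2]
    refine (Finset.prod_le_prod (fun i _ => norm_nonneg _) fun i _ => hK (σ i) i).trans
      (le_of_eq ?_)
    rw [Finset.prod_const, Finset.card_univ, Fintype.card_fin]
  refine (Finset.sum_le_sum h1).trans (le_of_eq ?_)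
  rw [Finset.sum_const, Finset.card_univ, Fintype.card_perm, Fintype.card_fin, nsmul_eq_mul]

theorem pf_NRM : T_REP → T_RP1 → T_NRA → T_NRB → T_NRM := by
  intro hREP hRP1 hNRA hNRB t ι _ x hx
  obtain ⟨N, b, j0, D, B, hb0, hD0, hB, hdet⟩ := hNRA t ι x hx
  obtain ⟨e, E, hE1, hA⟩ := hNRB t ι x N b D B hB
  obtain ⟨T, hTd⟩ : ∃ T : ℝ, T = max 1 ‖t‖ := ⟨_, rfl⟩
  have hT1 : 1 ≤ T := hTd ▸ le_max_left _ _
  have hT : ‖t‖ ≤ T := hTd ▸ le_max_right _ _
  obtain ⟨d, hdd⟩ : ∃ d : ℝ, d = max 1 ‖aeval t D‖ := ⟨_, rfl⟩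
  have hd1 : 1 ≤ d := hdd ▸ le_max_left _ _
  have hd : ‖aeval t D‖ ≤ d := hdd ▸ le_max_right _ _
  obtain ⟨W, hW⟩ : ∃ W : ℝ, W = E * T ^ e := ⟨_, rfl⟩
  have hTe : 1 ≤ T ^ e := one_le_pow₀ hT1
  have hW1 : 1 ≤ W := by rw [hW]; nlinarith
  have hEW : E ≤ W := by rw [hW]; nlinarith
  obtain ⟨s, hs⟩ : ∃ s : ℝ, s = (∑ k, ‖b k‖) / ‖b j0‖ := ⟨_, rfl⟩
  have hbj : 0 < ‖b j0‖ := norm_pos_iff.2 hb0
  have hs0 : 0 ≤ s := by rw [hs]; positivity
  have hf1 : (1 : ℝ) ≤ (N.factorial : ℝ) := by exact_mod_cast Nat.factorial_pos N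
  obtain ⟨c0, hc0⟩ : ∃ c0 : ℝ, c0 = (N.factorial : ℝ) * (1 + s) := ⟨_, rfl⟩
  have hcf : (N.factorial : ℝ) ≤ c0 := by rw [hc0]; nlinarith
  have hcs : (N.factorial : ℝ) * s ≤ c0 := by rw [hc0]; nlinarith
  have hc1 : 1 ≤ c0 := hf1.trans hcf
  have hlc := Real.log_nonneg hc1
  have hlW := Real.log_nonneg hW1
  have hld := Real.log_nonneg hd1
  obtain ⟨C, hC⟩ : ∃ C : ℝ, C = N * e + 1 + Real.log c0 + N * Real.log W + Real.log d :=
    ⟨_, rfl⟩
  have hN0 : (0 : ℝ) ≤ N := Nat.cast_nonneg N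
  have he0 : (0 : ℝ) ≤ e := Nat.cast_nonneg e
  have hNe : 0 ≤ (N : ℝ) * e := by positivity
  have hNW : 0 ≤ (N : ℝ) * Real.log W := by positivity
  have hexp : ∀ δ : ℕ, c0 * W ^ (N * δ) * d ^ δ ≤ Real.exp (C * (δ + 1)) := by
    intro δ
    have h1 : c0 * W ^ (N * δ) * d ^ δ =
        Real.exp (Real.log c0 + (N * δ : ℕ) * Real.log W + δ * Real.log d) := by
      rw [Real.exp_add, Real.exp_add, Real.exp_log (by linarith), Real.exp_nat_mul,
        Real.exp_nat_mul, Real.exp_log (by linarith), Real.exp_log (by linarith)]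
    rw [h1, Real.exp_le_exp, hC]
    push_cast
    have hδ : (0 : ℝ) ≤ δ := Nat.cast_nonneg δ
    have h2 : 0 ≤ (δ : ℝ) * Real.log c0 := by positivity
    have h3 : 0 ≤ ((N : ℝ) * e + 1) * (δ + 1) := by positivity
    nlinarith
  refine ⟨N, C, by rw [hC]; linarith, ?_⟩
  intro δ L z hL hz hRep
  obtain ⟨A, hAb, hAd⟩ := hA δ L z hRep
  have hL0 : 0 < L := by linarith
  have hE0 : 0 < E := by linarith
  obtain ⟨K, hK⟩ : ∃ K : ℝ, K = L * E ^ δ * T ^ (e * δ) := ⟨_, rfl⟩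
  have hKW : K = L * W ^ δ := by
    rw [hK, hW, mul_pow, ← pow_mul]
    ring
  have hWδ : 1 ≤ W ^ δ := one_le_pow₀ hW1
  have hK1 : 1 ≤ K := by rw [hKW]; nlinarith
  -- the field
  obtain ⟨F, hF⟩ : ∃ F, F = IntermediateField.adjoin ℚ (insert t (Set.range x)) := ⟨_, rfl⟩
  have htF : t ∈ F := by
    rw [hF]
    exact IntermediateField.subset_adjoin ℚ _ (Set.mem_insert _ _)
  have hxF : ∀ i, x i ∈ F := by
    intro i
    rw [hF]
    exact IntermediateField.subset_adjoin ℚ _ (Set.mem_insert_of_mem _ (Set.mem_range_self i))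
  have hall : ∀ Φ : MvPolynomial ι ℤ, MvPolynomial.aeval x Φ ∈ F := by
    intro Φ
    induction Φ using MvPolynomial.induction_on with
    | C a =>
      rw [MvPolynomial.aeval_C]
      exact intCast_mem F a
    | add p q hp hq =>
      rw [map_add]
      exact add_mem hp hq
    | mul_X p i hp =>
      rw [map_mul, MvPolynomial.aeval_X]
      exact mul_mem hp (hxF i)
  have hzF : z ∈ F := by
    obtain ⟨Φ, -, -, hΦ⟩ := hRep
    rw [← hΦ]
    exact hall Φ
  have hDF : aeval t D ∈ F := by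
    rw [aeval_def, eval₂_eq_sum, Polynomial.sum]
    exact sum_mem fun i _ => mul_mem (intCast_mem F _) (pow_mem htF i)
  obtain ⟨z', hz'⟩ : ∃ z' : ℂ, z' = aeval t D ^ δ * z := ⟨_, rfl⟩
  have hz'0 : z' ≠ 0 := by rw [hz']; exact mul_ne_zero (pow_ne_zero _ hD0) hz
  have hz'F : z' ∈ F := by rw [hz']; exact mul_mem (pow_mem hDF _) hzF
  have hne : aeval t A.det ≠ 0 := by
    refine hdet z' (hF ▸ hz'F) hz'0 A fun j => ?_
    rw [hz']
    exact hAb j
  obtain ⟨M, hM⟩ : ∃ M : Matrix (Fin N) (Fin N) ℂ, M = fun j k => aeval t (A j k) := ⟨_, rfl⟩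
  have hMdet : aeval t A.det = M.det := by
    rw [hM]
    have h1 := (aeval t : ℤ[X] →ₐ[ℤ] ℂ).toRingHom.map_det A
    exact h1
  have hMb : M.mulVec b = fun j => z' * b j := by
    funext j
    rw [hM, hz']
    exact (hAb j).symm
  have hMK : ∀ i j, ‖M i j‖ ≤ K := by
    intro i j
    rw [hM, hK]
    exact nrm_val hT1 hT (hAd i j).1 (hAd i j).2
  -- the polynomial
  have hRdet : Rep (fun _ : Unit => t) (N * (e * δ)) ((N.factorial : ℝ) * (L * E ^ δ) ^ N)
      M.det := by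
    obtain ⟨r1, r2, r3, r4, r5, r6, r7, r8⟩ := hREP Unit (fun _ => t)
    rw [Matrix.det_apply]
    have h1 : ∀ σ ∈ (Finset.univ : Finset (Equiv.Perm (Fin N))),
        Rep (fun _ : Unit => t) (N * (e * δ)) ((L * E ^ δ) ^ N)
          (Equiv.Perm.sign σ • ∏ i, M (σ i) i) := by
      intro σ _
      have h2 : Rep (fun _ : Unit => t) (∑ _i : Fin N, e * δ) (∏ _i : Fin N, L * E ^ δ)
          (∏ i, M (σ i) i) := by
        refine r8 (Fin N) Finset.univ (fun _ => e * δ) (fun _ => L * E ^ δ)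
          (fun i => M (σ i) i) fun i _ => ?_
        refine (hRP1 t (e * δ) (L * E ^ δ) (M (σ i) i)).2 ⟨A (σ i) i, (hAd _ _).1,
          (hAd _ _).2, ?_⟩
        rw [hM]
      have h3 : Rep (fun _ : Unit => t) 0 1 (((Equiv.Perm.sign σ : ℤ) : ℂ)) := by
        have h4 := r1 (Equiv.Perm.sign σ : ℤ)
        have h5 : |(((Equiv.Perm.sign σ : ℤ) : ℝ))| = 1 := by
          rcases Int.units_eq_one_or (Equiv.Perm.sign σ) with h | h
          · rw [h]; simp
          · rw [h]; simp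
        rwa [h5] at h4
      have h4 := r5 _ _ _ _ _ _ h3 h2
      have h5 : ((Equiv.Perm.sign σ : ℤ) : ℂ) * ∏ i, M (σ i) i =
          Equiv.Perm.sign σ • ∏ i, M (σ i) i := by
        rcases Int.units_eq_one_or (Equiv.Perm.sign σ) with h | h
        · rw [h]; simp
        · rw [h]; simp [Units.neg_smul]
      rw [h5] at h4
      refine r2 _ _ _ _ _ ?_ ?_ h4
      · rw [Finset.sum_const, Finset.card_univ, Fintype.card_fin, smul_eq_mul, zero_add]
      · rw [Finset.prod_const, Finset.card_univ, Fintype.card_fin, one_mul]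
    have h2 := r7 _ Finset.univ _ (fun _ => (L * E ^ δ) ^ N) _ h1
    refine r2 _ _ _ _ _ le_rfl (le_of_eq ?_) h2
    rw [Finset.sum_const, Finset.card_univ, Fintype.card_perm, Fintype.card_fin, nsmul_eq_mul]
  obtain ⟨R, hRd, hRl, hRv⟩ := (hRP1 _ _ _ _).1 hRdet
  have hδ : (0 : ℝ) ≤ δ := Nat.cast_nonneg δ
  refine ⟨R, ?_, ?_, ?_, ?_⟩
  · rw [hRv, ← hMdet]
    exact hne
  · have h1 : (R.natDegree : ℝ) ≤ (N * (e * δ) : ℕ) := by exact_mod_cast hRd
    refine h1.trans ?_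
    push_cast
    rw [hC]
    have h2 : 0 ≤ (Real.log c0 + N * Real.log W + Real.log d + 1) * ((δ : ℝ) + 1) := by
      positivity
    nlinarith
  · intro i
    have h1 : |(R.coeff i : ℝ)| ≤ ∑ j ∈ R.support, |(R.coeff j : ℝ)| := by
      by_cases hi : i ∈ R.support
      · exact Finset.single_le_sum (f := fun j => |(R.coeff j : ℝ)|)
          (fun j _ => abs_nonneg _) hi
      · rw [notMem_support_iff.1 hi]
        simp only [Int.cast_zero, abs_zero]
        exact Finset.sum_nonneg fun j _ => abs_nonneg _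
    refine (h1.trans hRl).trans ?_
    have h2 : (N.factorial : ℝ) * (L * E ^ δ) ^ N = L ^ N * ((N.factorial : ℝ) *
        E ^ (N * δ)) := by
      rw [mul_pow, ← pow_mul, mul_comm δ N]
      ring
    rw [h2]
    refine mul_le_mul_of_nonneg_left ((?_ : _ ≤ _).trans (hexp δ)) (by positivity)
    have h3 : (N.factorial : ℝ) * E ^ (N * δ) ≤ c0 * W ^ (N * δ) :=
      mul_le_mul hcf (pow_le_pow_left₀ hE0.le hEW _) (by positivity) (by linarith)
    have h4 : 1 ≤ d ^ δ := one_le_pow₀ hd1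
    have h5 : 0 ≤ c0 * W ^ (N * δ) := by positivity
    nlinarith
  · rw [hRv]
    have h1 : M.adjugate.mulVec (M.mulVec b) = M.det • b := by
      rw [Matrix.mulVec_mulVec, Matrix.adjugate_mul, Matrix.smul_mulVec, Matrix.one_mulVec]
    have h2 : M.det * b j0 = ∑ k, M.adjugate j0 k * (z' * b k) := by
      have h3 := congrFun h1 j0
      rw [hMb] at h3
      rw [Pi.smul_apply, smul_eq_mul] at h3
      rw [← h3]
      rfl
    have h3 : ∀ k, ‖M.adjugate j0 k‖ ≤ (N.factorial : ℝ) * K ^ N := by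
      intro k
      rw [Matrix.adjugate_apply]
      refine nrm_det _ fun i j => ?_
      by_cases hi : i = k
      · subst hi
        rw [Matrix.updateRow_self]
        by_cases hj : j = j0
        · subst hj
          rw [Pi.single_eq_same, norm_one]
          exact hK1
        · rw [Pi.single_eq_of_ne hj, norm_zero]
          linarith
      · rw [Matrix.updateRow_ne hi]
        exact hMK i j
    have h4 : ‖M.det‖ * ‖b j0‖ ≤ (N.factorial : ℝ) * K ^ N * (‖z'‖ * ∑ k, ‖b k‖) := by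
      rw [← norm_mul, h2]
      refine (norm_sum_le _ _).trans ?_
      rw [Finset.mul_sum, Finset.mul_sum]
      refine Finset.sum_le_sum fun k _ => ?_
      rw [norm_mul, norm_mul]
      exact mul_le_mul_of_nonneg_right (h3 k) (by positivity)
    have h5 : ‖z'‖ ≤ d ^ δ * ‖z‖ := by
      rw [hz', norm_mul, norm_pow]
      exact mul_le_mul_of_nonneg_right (pow_le_pow_left₀ (norm_nonneg _) hd δ) (norm_nonneg _)
    have h6 : ‖M.det‖ ≤ (N.factorial : ℝ) * K ^ N * (‖z'‖ * s) := by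
      have h7 : ‖M.det‖ ≤ ((N.factorial : ℝ) * K ^ N * (‖z'‖ * ∑ k, ‖b k‖)) / ‖b j0‖ := by
        rw [le_div_iff₀ hbj]
        exact h4
      refine h7.trans (le_of_eq ?_)
      rw [hs]
      ring
    refine h6.trans ?_
    have h7 : (N.factorial : ℝ) * K ^ N * (‖z'‖ * s) ≤
        (N.factorial : ℝ) * K ^ N * (d ^ δ * ‖z‖ * s) := by
      refine mul_le_mul_of_nonneg_left ?_ (by positivity)
      exact mul_le_mul_of_nonneg_right h5 hs0
    refine h7.trans ?_
    have h8 : (N.factorial : ℝ) * K ^ N * (d ^ δ * ‖z‖ * s) =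
        ‖z‖ * (L ^ N * (((N.factorial : ℝ) * s) * W ^ (N * δ) * d ^ δ)) := by
      rw [hKW, mul_pow, ← pow_mul, mul_comm δ N]
      ring
    rw [h8]
    refine mul_le_mul_of_nonneg_left ?_ (norm_nonneg _)
    refine mul_le_mul_of_nonneg_left ((?_ : _ ≤ _).trans (hexp δ)) (by positivity)
    refine mul_le_mul_of_nonneg_right ?_ (by positivity)
    exact mul_le_mul_of_nonneg_right hcs (by positivity)

end Pool.Agent.H46.TD
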